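import Pool.Agent.Q54.KP.StmB

/-!
# Project KP, job DGR: translation of the degree conditions
-/

set_option autoImplicit false

namespace Pool.Agent.Q224.KP

open Finset Pool.Agent.Q54.KP

theorem dgr : S_DGR := by
  intro V _ _ E hE
  have h2 : ∀ x y, x ≠ y → cnt (fun z => ed E x y z) = (pdeg E x y : ℝ) := by
    intro x y hxy
    classical
    rw [cnt_eq_card]
    unfold pdeg
    norm_cast
    refine Finset.card_bij (fun z _ => ({x, y, z} : Finset V)) ?_ ?_ ?_
    · intro z hz
      simp only [Finset.mem_filter, Finset.mem_univ, true_and] at hz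
      simp only [Finset.mem_filter]
      exact ⟨hz, by simp, by simp⟩
    · intro z hz z' hz' h
      simp only [Finset.mem_filter, Finset.mem_univ, true_and] at hz hz'
      obtain ⟨-, h1, h2⟩ := ed_ne hE hz
      have : z ∈ ({x, y, z'} : Finset V) := by rw [← h]; simp
      simp only [Finset.mem_insert, Finset.mem_singleton] at this
      rcases this with h3 | h3 | h3
      · exact absurd h3.symm h1
      · exact absurd h3.symm h2
      · exact h3
    · intro e he
      simp only [Finset.mem_filter] at he
      obtain ⟨he, hx, hy⟩ := he
      have h3 := hE e he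
      have hc : ((e.erase x).erase y).card = 1 := by
        rw [Finset.card_erase_of_mem (Finset.mem_erase.2 ⟨hxy.symm, hy⟩),
          Finset.card_erase_of_mem hx, h3]
      obtain ⟨z, hz⟩ := Finset.card_eq_one.1 hc
      have hze : e = {x, y, z} := by
        rw [← hz, Finset.insert_erase (Finset.mem_erase.2 ⟨hxy.symm, hy⟩),
          Finset.insert_erase hx]
      refine ⟨z, ?_, hze.symm⟩
      simp only [Finset.mem_filter, Finset.mem_univ, true_and]
      unfold ed
      rw [← hze]
      exact he
  refine ⟨fun v => ?_, h2⟩
  unfold dg2
  rw [cnt_prod (fun x z => ed E v x z)]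
  have hx : ∀ x, cnt (fun z => ed E v x z) =
      ∑ e ∈ E.filter (fun e => v ∈ e), if x ∈ e.erase v then (1 : ℝ) else 0 := by
    intro x
    by_cases hxv : x = v
    · subst hxv
      have : cnt (fun z => ed E x x z) = 0 := by
        refine le_antisymm ?_ (cnt_nonneg _)
        classical
        rw [cnt_eq_card]
        norm_cast
        rw [Nat.le_zero, Finset.card_eq_zero, Finset.filter_eq_empty_iff]
        intro z _ hz
        exact (ed_ne hE hz).1 rfl
      rw [this]
      symm
      apply Finset.sum_eq_zero
      intro e _
      simp
    · rw [h2 v x (Ne.symm hxv)]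
      unfold pdeg
      rw [← Finset.filter_filter]
      rw [Finset.card_filter]
      push_cast
      apply Finset.sum_congr rfl
      intro e _
      simp [hxv]
  simp only [hx]
  rw [Finset.sum_comm]
  have h4 : ∀ e ∈ E.filter (fun e => v ∈ e),
      (∑ x, if x ∈ e.erase v then (1 : ℝ) else 0) = 2 := by
    intro e he
    simp only [Finset.mem_filter] at he
    rw [← Finset.sum_filter]
    have : Finset.univ.filter (fun x => x ∈ e.erase v) = e.erase v := by
      ext x; simp
    rw [this, Finset.sum_const, Finset.card_erase_of_mem he.2, hE e he.1]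
    norm_num
  rw [Finset.sum_congr rfl h4, Finset.sum_const, nsmul_eq_mul, mul_comm]
  rfl

end Pool.Agent.Q224.KP
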