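import Pool.Agent.Q54.KP.StmB

/-!
# Project KP, job FIN: the final assembly
-/

set_option autoImplicit false

namespace Pool.Agent.Q224.KP

open Finset Pool.Agent.Q54.KP

theorem fin : S_KPK → S_TRI → S_DGR → S_FIN := by
  intro hK hT hD W _ _ _ H hH c hc0 hc1
  have hW : 1 ≤ Fintype.card W := Fintype.card_pos
  obtain ⟨ε, hε, C, hC⟩ := hK (2 * Fintype.card W) c (by omega) hc0 hc1
  refine ⟨ε, hε, C, ?_⟩
  intro V _ _ E d hE hd hdeg hpd
  obtain ⟨g1, g2⟩ := hD V E hE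
  have hHy : Hy E c ε (2 * d) := by
    refine ⟨⟨hE, fun x y hxy => ?_⟩, ?_, fun v => ?_, fun v => ?_⟩
    · rw [g2 x y hxy]
      exact hpd x y hxy
    · unfold nn
      linarith
    · rw [g1 v]
      have := (hdeg v).1
      linarith
    · rw [g1 v]
      have := (hdeg v).2
      linarith
  obtain ⟨X, ⟨P, hP1, hP2, hP3⟩, hXC⟩ := hC V E (2 * d) hHy
  classical
  have hch : ∀ K : Finset V, ∃ Q : Finset (W ↪ V), K ∈ P → (∀ φ ∈ Q, IsCopy H E φ) ∧
      (∀ φ ∈ Q, ∀ ψ ∈ Q, φ ≠ ψ → Disjoint (univ.map φ) (univ.map ψ)) ∧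
      Q.biUnion (fun φ => univ.map φ) = K := by
    intro K
    by_cases hKP : K ∈ P
    · obtain ⟨κ, hκ, hκK⟩ := hP1 K hKP
      obtain ⟨Q, q1, q2, q3⟩ := hT W V H E κ hH hκ
      exact ⟨Q, fun _ => ⟨q1, q2, by rw [q3, hκK]⟩⟩
    · exact ⟨∅, fun h => absurd h hKP⟩
  choose Q hQ using hch
  refine ⟨P.biUnion Q, ?_, ?_, ?_⟩
  · intro φ hφ
    obtain ⟨K, hKP, hφK⟩ := Finset.mem_biUnion.1 hφ
    exact (hQ K hKP).1 φ hφK
  · intro φ hφ ψ hψ hne
    obtain ⟨K, hKP, hφK⟩ := Finset.mem_biUnion.1 hφ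
    obtain ⟨K', hKP', hψK⟩ := Finset.mem_biUnion.1 hψ
    by_cases hKK : K = K'
    · subst hKK
      exact (hQ K hKP).2.1 φ hφK ψ hψK hne
    · have h1 : univ.map φ ⊆ K := by
        intro v hv
        rw [← (hQ K hKP).2.2]
        exact Finset.mem_biUnion.2 ⟨φ, hφK, hv⟩
      have h2 : univ.map ψ ⊆ K' := by
        intro v hv
        rw [← (hQ K' hKP').2.2]
        exact Finset.mem_biUnion.2 ⟨ψ, hψK, hv⟩
      exact Finset.disjoint_of_subset_left h1
        (Finset.disjoint_of_subset_right h2 (hP2 K hKP K' hKP' hKK))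
  · refine le_trans (Finset.card_le_card ?_) hXC
    intro v hv
    simp only [Finset.mem_filter, Finset.mem_univ, true_and] at hv
    simp only [Finset.mem_sdiff, Finset.mem_univ, true_and]
    intro hvX
    rw [← hP3] at hvX
    obtain ⟨K, hKP, hvK⟩ := Finset.mem_biUnion.1 hvX
    simp only [id] at hvK
    rw [← (hQ K hKP).2.2] at hvK
    obtain ⟨φ, hφK, hvφ⟩ := Finset.mem_biUnion.1 hvK
    exact hv φ (Finset.mem_biUnion.2 ⟨K, hKP, hφK⟩) hvφ

end Pool.Agent.Q224.KP
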